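import Pool.Agent.Lib.MP_250511_an.SB.PAI
import Pool.Agent.Lib.MP_250511_an.SB.RMT
import Pool.Agent.Lib.MP_250511_an.SB.PIK
import Pool.Agent.Lib.MP_250511_an.SB.KCL
import Pool.Agent.Lib.MP_250511_an.SB.PER
import Pool.Agent.Lib.MP_250511_an.SB.DIF
import Pool.Agent.Lib.MP_250511_an.SB.HOM
import Pool.Agent.Lib.MP_250511_an.SB.INQ
import Pool.Agent.Lib.MP_250511_an.SB.FLU
import Pool.Agent.Lib.MP_250511_an.SB.ENE
import Pool.Agent.Lib.MP_250511_an.SB.LIN
import Pool.Agent.Lib.MP_250511_an.SB.CHV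
import Pool.Agent.Lib.MP_250511_an.SB.NEA
import Pool.Agent.Lib.MP_250511_an.SB.VIN
import Pool.Agent.Lib.MP_250511_an.SB.VAB
import Pool.Agent.Lib.MP_250511_an.SB.WEY
import Pool.Agent.Lib.MP_250511_an.SB.VAF
import Pool.Agent.Lib.MP_250511_an.SB.VRF
import Pool.Agent.Lib.MP_250511_an.SB.LCF
import Pool.Agent.Lib.MP_250511_an.SB.EXF
import Pool.Agent.Lib.MP_250511_an.SB.NFA
import Pool.Agent.Lib.MP_250511_an.SB.NFB
import Pool.Agent.Lib.MP_250511_an.SB.NFC
import Pool.Agent.Lib.MP_250511_an.SB.ZA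
import Pool.Agent.Lib.MP_250511_an.SB.ZB
import Pool.Agent.Lib.MP_250511_an.SB.ZC
import Pool.Agent.Lib.MP_250511_an.SB.ZD
import Pool.Agent.Lib.MP_250511_an.SB.ZE
import Pool.Agent.Lib.MP_250511_an.SB.ZFA
import Pool.Agent.Lib.MP_250511_an.SB.ZFB
import Pool.Agent.Lib.MP_250511_an.SB.ZG
import Pool.Agent.Lib.MP_250511_an.SB.ZH
import Pool.Agent.Lib.MP_250511_an.SB.ZI
import Pool.Agent.Lib.MP_250511_an.SB.ZJ
import Pool.Agent.Lib.MP_250511_an.SB.ZN
import Pool.Agent.Lib.MP_250511_an.SB.ZO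
import Pool.Agent.Lib.MP_250511_an.SB.ZP
import Pool.Agent.Lib.MP_250511_an.SB.ZK
import Pool.Agent.Lib.MP_250511_an.SB.ZL
import Pool.Agent.Lib.MP_250511_an.SB.AZ
import Pool.Agent.Lib.MP_250511_an.SB.DIG
import Pool.Agent.Lib.MP_250511_an.SB.HMG
import Pool.Agent.Lib.MP_250511_an.SB.ING
import Pool.Agent.Lib.MP_250511_an.SB.CHG
import Pool.Agent.Lib.MP_250511_an.SB.NEG
import Pool.Agent.Lib.MP_250511_an.SB.VIG
import Pool.Agent.Lib.MP_250511_an.SB.VBG
import Pool.Agent.Lib.MP_250511_an.SB.INR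
import Pool.Agent.Lib.MP_250511_an.SB.POS
import Pool.Agent.Lib.MP_250511_an.SB.HBA
import Pool.Agent.Lib.MP_250511_an.SB.RMA
import Pool.Agent.Lib.MP_250511_an.SB.HBR
import Pool.Agent.Lib.MP_250511_an.SB.MUL
import Pool.Agent.Lib.MP_250511_an.SB.CUT
import Pool.Agent.Lib.MP_250511_an.SB.DCH
import Pool.Agent.Lib.MP_250511_an.SB.RIN
import Pool.Agent.Lib.MP_250511_an.SB.NRA
import Pool.Agent.Lib.MP_250511_an.SB.NRB
import Pool.Agent.Lib.MP_250511_an.SB.MAS
import Pool.Agent.Lib.MP_250511_an.SB.CPX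
import Pool.Agent.Lib.MP_250511_an.SB.KER
import Pool.Agent.Lib.MP_250511_an.SB.MVP
import Pool.Agent.Lib.MP_250511_an.SB.LAU
import Pool.Agent.Lib.MP_250511_an.SB.INN
import Pool.Agent.Lib.MP_250511_an.SB.OUT
import Pool.Agent.Lib.MP_250511_an.SB.CVZ
import Pool.Agent.Lib.MP_250511_an.SB.RHS
import Pool.Agent.Lib.MP_250511_an.SB.REP
import Pool.Agent.Lib.MP_250511_an.SB.ARB
import Pool.Agent.Lib.MP_250511_an.SB.MOM
import Pool.Agent.Lib.MP_250511_an.SB.ORD
import Pool.Agent.Lib.MP_250511_an.SB.CHT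
import Pool.Agent.Lib.MP_250511_an.SB.UNB
import Pool.Agent.Lib.MP_250511_an.SB.NRT
import Pool.Agent.Lib.MP_250511_an.SB.NPD
import Pool.Agent.Lib.MP_250511_an.SB.NTD
import Pool.Agent.Lib.MP_250511_an.SB.ISD
import Pool.Agent.Lib.MP_250511_an.SB.STD
import Pool.Agent.Lib.MP_250511_an.SB.FIND
import Pool.Agent.Lib.MP_250511_an.SB.RLX
import Pool.Agent.Lib.MP_250511_an.SB.RCU
import Pool.Agent.Lib.MP_250511_an.SB.RTC
import Pool.Agent.Lib.MP_250511_an.SB.RST
import Pool.Agent.Lib.MP_250511_an.SB.RCX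

/-!
Problem MP_250511_an, Q1: the structure of an arbitrary extremal function for the schlicht Bloch
constant `S`: the differential equation with the measure of the contact forces, the rectifiability of
the complement, and its local form off the limit points of the touched points.
-/

set_option autoImplicit false

namespace Pool.Agent.Results.MP_250511_an.ExtremalStructure

open Complex Metric Set MeasureTheory
open scoped ComplexConjugate NNReal
open Pool.Agent.Lib.MP250511 (S rho Univ)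
open Pool.Agent.Lib.MP250511.SB

theorem chv : SpecCHV := specCHV specLIN
theorem vin : SpecVIN := specVIN specINQ specFLU specENE chv specNEA
theorem vaf : SpecVAF := specVAF specPER
theorem vrf : SpecVRF := specVRF specPAI specRMT specHOM specDIF specINQ vin vaf specVAB
theorem lcf : SpecLCF := specLCF specKCL specINQ vrf specWEY
theorem exf : SpecEXF := specEXF specPAI
theorem nfc : SpecNFC := specNFC specNFA specNFB
theorem za : SpecZA := specZA lcf
theorem zd : SpecZD := specZD specINQ specFLU specENE chv specNEA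
theorem zfb : SpecZFB := specZFB specPIK specZFA
theorem zh : SpecZH := specZH specINQ specZG
theorem zj : SpecZJ := specZJ specINQ zh specZI
theorem zn : SpecZN := specZN specZI
theorem zp : SpecZP := specZP specINQ
theorem zk : SpecZK := specZK specPAI specRMT specKCL specHOM za specZB specZC zd specZE zfb specZI
  zj zn specZO zp
theorem az : SpecAZ := specAZ exf lcf zk (specZL specKCL)
theorem chg : SpecCHG := specCHG specLIN
theorem vig : SpecVIG := specVIG specING specFLU specENE chg specNEG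
theorem pos : SpecPOS := specPOS specPAI specRMT specHMG specDIG specING vig specVBG specINR
theorem hbr : SpecHBR := specHBR specHBA specRMA
theorem mul : SpecMUL := specMUL pos hbr
theorem dch : SpecDCH := specDCH specCUT
theorem rin : SpecRIN := specRIN specCUT dch
theorem nra : SpecNRA := specNRA specCUT dch rin specING
theorem nrb : SpecNRB := specNRB specCUT
theorem mas : SpecMAS := specMAS specCUT nra nrb
theorem mvp : SpecMVP := specMVP specKER
theorem inn : SpecINN := specINN specKER mvp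
theorem out : SpecOUT := specOUT specKER
theorem cvz : SpecCVZ := specCVZ specCUT
theorem rhs : SpecRHS := specRHS specCUT
theorem rep : SpecREP := specREP specING specKER specLAU inn out specCUT cvz rhs
theorem unb : SpecUNB := specUNB specARB specMOM specORD specCHT
theorem nrt : SpecNRT := specNRT specARB specORD specCHT
theorem ntd : SpecNTD := specNTD specNPD specNFB
theorem std : SpecSTD := specSTD nfc ntd specISD
theorem find : SpecFIND := specFIND exf mul mas specCPX rep unb std nrt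
theorem rtc : SpecRTC := specRTC specRLX specRCU
theorem rst : SpecRST := specRST specRLX specRCU
theorem rcx : SpecRCX := specRCX exf specKCL specRCU rtc rst find

/-- the points of the complement of `f(D)` that are touched by a disc of radius `S` in `f(D)` -/
def Touched (f : ℂ → ℂ) : Set ℂ :=
  {p | p ∉ f '' ball 0 1 ∧ ∃ c : ℂ, ball c S.toReal ⊆ f '' ball 0 1 ∧ dist p c = S.toReal}

/-- Let `f` be any extremal function for the schlicht Bloch constant `S`.  (1) There is a probability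
measure `ν` on the contact pairs `(c, p)` (`c` the centre of a disc of radius `S` contained in
`f(D)`, `p` a point of the complement of `f(D)` with `|p - c| = S`) such that every disc is in
equilibrium, `1/(w f'(w))² = 1/f(w)² - S⁻² ∫ conj (p - c)/(f(w) - p) dν(c, p)` for all `w ≠ 0`, and
`ν` is not carried by a bounded set; moreover `1/(w f'(w))²` is not `H(f(w))` for `|f(w)| > M` with
`H` analytic and of at most polynomial growth in `|z| > M`.  (2) The complement lies in a countable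
union of Lipschitz curves (and so has area zero).
(3) Let `z₀` be a point of the complement that is untouched, or touched but not a limit of other
touched points, and let `R = ∫_{p = z₀} (p - c) dν` be the resultant of the contact forces at `z₀`
(`R = 0` if `z₀` is untouched).  Near `z₀` the complement is `{ξ^N ≤ 0}` in a conformal coordinate
`ξ`, `(log |f⁻¹|)² = (|ξ|^N + Re ξ^N) / 2`, `N ≥ 1`; `N = 1` (a tip) iff `R ≠ 0`, and then
`ξ'(z₀) = - 4 S⁻² conj R`: the slit leaves `z₀` in the direction of `R`. -/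
theorem result (f : ℂ → ℂ) (hf : Univ f) (hS : rho f = S) :
    (∃ ν : Measure (ℂ × ℂ), IsProbabilityMeasure ν ∧
      (∀ᵐ x ∂ν, ball x.1 S.toReal ⊆ f '' ball 0 1 ∧ x.2 ∉ f '' ball 0 1 ∧
        dist x.2 x.1 = S.toReal) ∧
      (∀ b : ℂ → ℂ, Continuous b → HasCompactSupport b →
        ∫ x, conj (x.2 - x.1) * b x.1 ∂ν = 0) ∧
      (∀ w ∈ ball (0 : ℂ) 1, w ≠ 0 →
        1 / (w * deriv f w) ^ 2 = 1 / f w ^ 2 -
          (∫ x, conj (x.2 - x.1) / (f w - x.2) ∂ν) / (S.toReal : ℂ) ^ 2) ∧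
      (∀ M : ℝ, ν {x | M < ‖x.2‖} ≠ 0) ∧
      ∀ z₀ : ℂ, z₀ ∉ f '' ball 0 1 →
        (z₀ ∉ Touched f ∨ ∃ δ₀ > 0, Touched f ∩ ball z₀ δ₀ ⊆ {z₀}) →
        ∀ R : ℂ, R = ∫ x in {x : ℂ × ℂ | x.2 = z₀}, (x.2 - x.1) ∂ν →
          (z₀ ∉ Touched f → R = 0) ∧
          ∃ N ≥ 1, (N = 1 ↔ R ≠ 0) ∧
            ∃ δ > 0, ∃ ξ : ℂ → ℂ, AnalyticOnNhd ℂ ξ (ball z₀ δ) ∧ InjOn ξ (ball z₀ δ) ∧
              ξ z₀ = 0 ∧ (R ≠ 0 → deriv ξ z₀ = - 4 * conj R / (S.toReal : ℂ) ^ 2) ∧
              (∀ z ∈ ball z₀ δ, z ∉ f '' ball 0 1 ↔ (ξ z ^ N).re = - ‖ξ z‖ ^ N) ∧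
              ∀ w ∈ ball (0 : ℂ) 1, f w ∈ ball z₀ δ →
                2 * Real.log ‖w‖ ^ 2 = ‖ξ (f w)‖ ^ N + (ξ (f w) ^ N).re) ∧
    (∀ (M C : ℝ) (m : ℕ) (H : ℂ → ℂ), AnalyticOnNhd ℂ H {z | M < ‖z‖} →
      (∀ z, M < ‖z‖ → ‖H z‖ ≤ C * ‖z‖ ^ m) →
      ¬ ∀ w ∈ ball (0 : ℂ) 1, M < ‖f w‖ → 1 / (w * deriv f w) ^ 2 = H (f w)) ∧
    ((∃ γ : ℕ → ℝ → ℂ, (∀ n, ∃ L : ℝ≥0, LipschitzWith L (γ n)) ∧
      (f '' ball 0 1)ᶜ ⊆ ⋃ n, range (γ n)) ∧ volume (f '' ball 0 1)ᶜ = 0) := by
  obtain ⟨⟨ν, hν, h1, h2, h3, h4, h5⟩, h6⟩ := find az f hf hS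
  refine ⟨⟨ν, hν, h1, h2, h3, h4, fun z₀ hz₀ hz R hR => ?_⟩, h6,
    rcx az f hf hS, az f hf hS⟩
  have key : ∃ δ₀ > 0, Touched f ∩ ball z₀ δ₀ ⊆ {z₀} := by
    rcases hz with hz | hz
    · obtain ⟨g, hE⟩ := exf f hf hS
      have hcl : IsClosed (Touched f) := (specKCL (f '' ball 0 1) S.toReal hE.pos hE.op).1
      obtain ⟨δ₀, hδ₀, hsub⟩ := Metric.isOpen_iff.1 hcl.isOpen_compl z₀ hz
      exact ⟨δ₀, hδ₀, fun x hx => absurd hx.1 (hsub hx.2)⟩
    · exact hz
  obtain ⟨δ₀, hδ₀, hsub⟩ := key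
  obtain ⟨hR0, N, hN1, hN2, δ, hδ, ξ, hξa, hξi, hξR, hξ0, hξ1, hξ2⟩ :=
    h5 z₀ R hz₀ hR δ₀ hδ₀ (fun z hz hne hzf c hc hd => hne (hsub ⟨⟨hzf, c, hc, hd⟩, hz⟩))
  refine ⟨fun hT => hR0 (fun c hc hd => hT ⟨hz₀, c, hc, hd⟩), N, hN1, ?_, δ, hδ, ξ, hξa, hξi,
    hξ0, fun h => (hξR h).2, hξ1, hξ2⟩
  constructor
  · intro hN hR'
    have := hN2 hR'
    omega
  · exact fun h => (hξR h).1

end Pool.Agent.Results.MP_250511_an.ExtremalStructure
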