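import Pool.Agent.Lib.MP_250511_an.ST.D615.End

/-!
Problem MP_250511_an, Q2: the starlike schlicht Bloch constant `S₁` is at least `0.615`.
-/

set_option autoImplicit false

namespace Pool.Agent.Results.MP_250511_an.StarlikeBloch

open Pool.Agent.Lib.MP250511

/-- `S₁ ≥ 615 / 1000`. -/
theorem result : ENNReal.ofReal (615 / 1000) ≤ S₁ :=
  Pool.Agent.Lib.MP250511.ST.Chk.D615.end615

end Pool.Agent.Results.MP_250511_an.StarlikeBloch
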