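import Pool.Agent.Lib.MP_250511_an.SB.BLO
import Pool.Agent.Lib.MP_250511_an.SB.PAI
import Pool.Agent.Lib.MP_250511_an.SB.RMT
import Pool.Agent.Lib.MP_250511_an.SB.GAN
import Pool.Agent.Lib.MP_250511_an.SB.PIK
import Pool.Agent.Lib.MP_250511_an.SB.STC
import Pool.Agent.Lib.MP_250511_an.SB.POC
import Pool.Agent.Lib.MP_250511_an.SB.GRO
import Pool.Agent.Lib.MP_250511_an.SB.KCL
import Pool.Agent.Lib.MP_250511_an.SB.PER
import Pool.Agent.Lib.MP_250511_an.SB.FRO
import Pool.Agent.Lib.MP_250511_an.SB.WAA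
import Pool.Agent.Lib.MP_250511_an.SB.WAB
import Pool.Agent.Lib.MP_250511_an.SB.WAL
import Pool.Agent.Lib.MP_250511_an.SB.PKA
import Pool.Agent.Lib.MP_250511_an.SB.PKB
import Pool.Agent.Lib.MP_250511_an.SB.PKC
import Pool.Agent.Lib.MP_250511_an.SB.PKD
import Pool.Agent.Lib.MP_250511_an.SB.NOI
import Pool.Agent.Lib.MP_250511_an.SB.FLT
import Pool.Agent.Lib.MP_250511_an.SB.FRE
import Pool.Agent.Lib.MP_250511_an.SB.RAD
import Pool.Agent.Lib.MP_250511_an.SB.DIF
import Pool.Agent.Lib.MP_250511_an.SB.HOM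
import Pool.Agent.Lib.MP_250511_an.SB.INQ
import Pool.Agent.Lib.MP_250511_an.SB.FLU
import Pool.Agent.Lib.MP_250511_an.SB.ENE
import Pool.Agent.Lib.MP_250511_an.SB.LIN
import Pool.Agent.Lib.MP_250511_an.SB.CHV
import Pool.Agent.Lib.MP_250511_an.SB.NEA
import Pool.Agent.Lib.MP_250511_an.SB.VIN
import Pool.Agent.Lib.MP_250511_an.SB.VAA
import Pool.Agent.Lib.MP_250511_an.SB.VAB
import Pool.Agent.Lib.MP_250511_an.SB.VAR
import Pool.Agent.Lib.MP_250511_an.SB.WEY
import Pool.Agent.Lib.MP_250511_an.SB.LOC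
import Pool.Agent.Lib.MP_250511_an.SB.ROT
import Pool.Agent.Lib.MP_250511_an.SB.KA
import Pool.Agent.Lib.MP_250511_an.SB.KB
import Pool.Agent.Lib.MP_250511_an.SB.KC
import Pool.Agent.Lib.MP_250511_an.SB.KD
import Pool.Agent.Lib.MP_250511_an.SB.KE
import Pool.Agent.Lib.MP_250511_an.SB.SYM
import Pool.Agent.Lib.MP_250511_an.SB.FIN
import Pool.Agent.Lib.MP_250511_an.SB.LBD
import Pool.Agent.Lib.MP_250511_an.SB.EXM
import Pool.Agent.Lib.MP_250511_an.SB.EXS
import Pool.Agent.Lib.MP_250511_an.SB.EXR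
import Pool.Agent.Lib.MP_250511_an.SB.EXI
import Pool.Agent.Lib.MP_250511_an.SB.EXT

/-!
Problem MP_250511_an, Q1 and Q2: the schlicht Bloch constant `S` is strictly smaller than its
starlike analogue `S₁`.
-/

set_option autoImplicit false

namespace Pool.Agent.Results.MP_250511_an.StrictInequality

open Pool.Agent.Lib.MP250511 (S S₁)
open Pool.Agent.Lib.MP250511.SB

theorem gro : SpecGRO := specGRO specPAI specRMT specGAN
theorem fro : SpecFRO := specFRO gro specSTC specPOC specKCL specPER
theorem waa : SpecWAA := specWAA fro specKCL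
theorem wal : SpecWAL := specWAL waa specWAB
theorem pkb : SpecPKB := specPKB specPKA
theorem pkc : SpecPKC := specPKC specPIK specKCL
theorem pkd : SpecPKD := specPKD specPAI specRMT specGAN specSTC specPOC
theorem noi : SpecNOI := specNOI wal pkb pkc pkd
theorem fre : SpecFRE := specFRE specFLT
theorem rad : SpecRAD := specRAD fro
theorem chv : SpecCHV := specCHV specLIN
theorem vin : SpecVIN := specVIN specINQ specFLU specENE chv specNEA
theorem vaa : SpecVAA := specVAA specPER
theorem var' : SpecVAR := specVAR specPAI specRMT specHOM specDIF specINQ vin vaa specVAB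
theorem loc : SpecLOC := specLOC specKCL specINQ var' specWEY
theorem ka : SpecKA := specKA noi fre rad loc
theorem sym : SpecSYM := specSYM noi specROT ka specKB specKC specKD specKE
theorem lbd : SpecLBD := specLBD specBLO
theorem exm : SpecEXM := specEXM lbd
theorem exi : SpecEXI := specEXI exm specEXS specEXR
theorem ext : SpecEXT := specEXT specPAI exi

/-- The schlicht Bloch constant is strictly smaller than its starlike analogue. -/
theorem result : S < S₁ := main_of noi sym specFIN ext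

end Pool.Agent.Results.MP_250511_an.StrictInequality
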